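import Pool.Agent.V7H41.CC.Spec4

set_option autoImplicit false

/-!
# Many separated pieces of a tree
-/

open Finset

namespace Pool.Agent.V7H67.CC

open Pool.Agent.V7H41.CC

theorem pieces (hcut : S_CUT) (n : ℕ) (T : PhyloTree n) (s : ℕ) (hs : 1 ≤ s) :
    ∀ (N : ℕ) (L : Finset (Fin n)), L.card = N →
    ∃ (q : ℕ) (X : Fin q → Finset (Fin n)), (∀ i, X i ⊆ L) ∧
      (∀ i, s ≤ (X i).card ∧ (X i).card < 2 * s) ∧
      L.card < (∑ i, (X i).card) + 2 * s ∧ (∀ i j, i ≠ j → Disjoint (X i) (X j)) ∧
      ∀ i j, i ≠ j → ∀ A B : Finset (Fin n), A ⊆ X i → B ⊆ X j →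
        Disjoint (T.span A) (T.span B) := by
  intro N
  induction N using Nat.strong_induction_on with
  | _ N ih =>
    intro L hL
    by_cases h2 : 2 * s ≤ L.card
    · obtain ⟨Y, hYL, hsY, hY2, hY⟩ := hcut n T L s hs h2
      have hc : (L \ Y).card = L.card - Y.card := card_sdiff_of_subset hYL
      have hYc : Y.card ≤ L.card := card_le_card hYL
      obtain ⟨q, X, hX1, hX2, hX3, hX4, hX5⟩ := ih (L \ Y).card (by omega) (L \ Y) rfl
      refine ⟨q + 1, Fin.cons Y X, ?_, ?_, ?_, ?_, ?_⟩
      · intro i
        refine Fin.cases ?_ (fun j => ?_) i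
        · simpa using hYL
        · simpa using (hX1 j).trans sdiff_subset
      · intro i
        refine Fin.cases ?_ (fun j => ?_) i
        · simpa using ⟨hsY, hY2⟩
        · simpa using hX2 j
      · rw [Fin.sum_univ_succ]
        simp only [Fin.cons_zero, Fin.cons_succ]
        omega
      · intro i j
        refine Fin.cases ?_ (fun i => ?_) i <;> refine Fin.cases ?_ (fun j => ?_) j
        · intro h; exact absurd rfl h
        · intro _
          simp only [Fin.cons_zero, Fin.cons_succ]
          exact disjoint_sdiff.mono_right (hX1 j)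
        · intro _
          simp only [Fin.cons_zero, Fin.cons_succ]
          exact (disjoint_sdiff.mono_right (hX1 i)).symm
        · intro h
          simp only [Fin.cons_succ]
          exact hX4 i j (fun e => h (by rw [e]))
      · intro i j
        refine Fin.cases ?_ (fun i => ?_) i <;> refine Fin.cases ?_ (fun j => ?_) j
        · intro h; exact absurd rfl h
        · intro _ A B hA hB
          simp only [Fin.cons_zero, Fin.cons_succ] at hA hB
          exact hY A B hA (hB.trans (hX1 j))
        · intro _ A B hA hB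
          simp only [Fin.cons_zero, Fin.cons_succ] at hA hB
          exact (hY B A hB (hA.trans (hX1 i))).symm
        · intro h A B hA hB
          simp only [Fin.cons_succ] at hA hB
          exact hX5 i j (fun e => h (by rw [e])) A B hA hB
    · refine ⟨0, Fin.elim0, fun i => i.elim0, fun i => i.elim0, ?_, fun i => i.elim0,
        fun i => i.elim0⟩
      simp
      omega

theorem t_PIECES : S_CUT → S_PIECES := by
  intro hcut n T s hs
  obtain ⟨q, X, -, h2, h3, h4, h5⟩ := pieces hcut n T s hs _ univ rfl
  refine ⟨q, X, h2, ?_, h4, h5⟩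
  simpa using h3

end Pool.Agent.V7H67.CC
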