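import Pool.Agent.V7H41.CC.Spec4
import Pool.Agent.V7H96.CC.SINGLE

set_option autoImplicit false

/-!
# Pairs with disjoint paths in both trees give common convex partitions
-/

open Finset

namespace Pool.Agent.V7H67.CC

open Pool.Agent.V7H41.CC Pool.Agent.V7H96.CC

lemma leaf_mem_span {n : ℕ} (T : PhyloTree n) {A : Finset (Fin n)} {i : Fin n} (hi : i ∈ A) :
    T.leaf i ∈ T.span A :=
  ⟨i, hi, i, hi, SimpleGraph.Walk.nil, SimpleGraph.Walk.IsPath.nil, by simp⟩

lemma disjoint_of_span {n : ℕ} {T : PhyloTree n} {A B : Finset (Fin n)}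
    (h : Disjoint (T.span A) (T.span B)) : Disjoint A B := by
  rw [Finset.disjoint_left]
  intro x hA hB
  exact Set.disjoint_left.1 h (leaf_mem_span T hA) (leaf_mem_span T hB)

theorem t_TFP : S_TFP := by
  intro n m T F
  have key : {Q | IsTF T F m Q} ⊆
      (fun P : Finpartition (univ : Finset (Fin n)) => P.parts.filter (fun A => A.card = 2)) ''
        {P : Finpartition (univ : Finset (Fin n)) |
          T.Convex P ∧ F.Convex P ∧ P.parts.card = n - m} := by
    rintro Q ⟨hQm, hQ2, hQs⟩
    have hdis : ∀ A ∈ Q, ∀ B ∈ Q, A ≠ B → Disjoint A B :=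
      fun A hA B hB hAB => disjoint_of_span (hQs A hA B hB hAB).1
    have hcard : (Q.biUnion id).card = 2 * m := by
      have h1 : (Q.biUnion id).card = ∑ A ∈ Q, (id A).card := Finset.card_biUnion hdis
      rw [h1, Finset.sum_congr rfl (fun A hA => show (id A).card = 2 from hQ2 A hA)]
      simp [hQm, mul_comm]
    have hle : 2 * m ≤ n := by
      rw [← hcard]
      exact (card_le_univ _).trans (by simp)
    set U : Finset (Finset (Fin n)) :=
      ((univ : Finset (Fin n)) \ Q.biUnion id).image (fun x => ({x} : Finset (Fin n))) with hU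
    have hUc : U.card = n - 2 * m := by
      rw [hU, card_image_of_injective _ (Finset.singleton_injective), card_sdiff_of_subset (subset_univ _),
        hcard]
      simp
    have hU1 : ∀ A ∈ U, ∃ x, x ∉ Q.biUnion id ∧ A = {x} := by
      intro A hA
      rw [hU, mem_image] at hA
      obtain ⟨x, hx, rfl⟩ := hA
      exact ⟨x, (mem_sdiff.1 hx).2, rfl⟩
    have hQU : Disjoint Q U := by
      rw [Finset.disjoint_left]
      intro A hA hA'
      have h1 := hQ2 A hA
      obtain ⟨x, -, rfl⟩ := hU1 A hA'
      simp at h1
    let P : Finpartition (univ : Finset (Fin n)) :=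
      Finpartition.ofExistsUnique (Q ∪ U) (fun _ _ => subset_univ _)
        (by
          intro a _
          by_cases ha : a ∈ Q.biUnion id
          · obtain ⟨A, hA, haA⟩ := mem_biUnion.1 ha
            refine ⟨A, ⟨mem_union_left _ hA, haA⟩, ?_⟩
            rintro B ⟨hB, haB⟩
            rcases mem_union.1 hB with hB | hB
            · by_contra hne
              exact (Finset.disjoint_left.1 (hdis B hB A hA hne)) haB haA
            · obtain ⟨x, hx, rfl⟩ := hU1 B hB
              rw [mem_singleton] at haB
              subst haB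
              exact absurd ha hx
          · refine ⟨{a}, ⟨mem_union_right _ ?_, mem_singleton_self a⟩, ?_⟩
            · rw [hU, mem_image]
              exact ⟨a, mem_sdiff.2 ⟨mem_univ _, ha⟩, rfl⟩
            · rintro B ⟨hB, haB⟩
              rcases mem_union.1 hB with hB | hB
              · exact absurd (mem_biUnion.2 ⟨B, hB, haB⟩) ha
              · obtain ⟨x, hx, rfl⟩ := hU1 B hB
                rw [mem_singleton] at haB
                rw [haB])
        (by
          intro h
          rcases mem_union.1 h with h | h
          · have := hQ2 _ h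
            simp at this
          · obtain ⟨x, -, hx⟩ := hU1 _ h
            exact absurd hx.symm (by simp))
    have hP : P.parts = Q ∪ U := rfl
    have hconv : ∀ R : PhyloTree n,
        (∀ A ∈ Q, ∀ B ∈ Q, A ≠ B → Disjoint (R.span A) (R.span B)) → R.Convex P := by
      intro R hR A hA B hB hAB
      rcases mem_union.1 (hP ▸ hA) with hA' | hA' <;> rcases mem_union.1 (hP ▸ hB) with hB' | hB'
      · exact hR A hA' B hB' hAB
      · obtain ⟨x, hx, rfl⟩ := hU1 B hB'
        rw [span_single, Set.disjoint_singleton_right]
        exact leaf_notMem R _ x (fun h => hx (mem_biUnion.2 ⟨A, hA', h⟩))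
      · obtain ⟨x, hx, rfl⟩ := hU1 A hA'
        rw [span_single, Set.disjoint_singleton_left]
        exact leaf_notMem R _ x (fun h => hx (mem_biUnion.2 ⟨B, hB', h⟩))
      · obtain ⟨x, hx, rfl⟩ := hU1 A hA'
        obtain ⟨y, hy, rfl⟩ := hU1 B hB'
        rw [span_single, span_single, Set.disjoint_singleton]
        intro h
        exact hAB (by rw [R.leaf_inj h])
    refine ⟨P, ⟨hconv T fun A hA B hB h => (hQs A hA B hB h).1,
      hconv F fun A hA B hB h => (hQs A hA B hB h).2, ?_⟩, ?_⟩
    · rw [hP, card_union_of_disjoint hQU, hQm, hUc]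
      omega
    · show P.parts.filter (fun A => A.card = 2) = Q
      rw [hP]
      ext A
      rw [mem_filter, mem_union]
      constructor
      · rintro ⟨h | h, h2⟩
        · exact h
        · obtain ⟨x, -, rfl⟩ := hU1 A h
          simp at h2
      · intro h
        exact ⟨Or.inl h, hQ2 A h⟩
  exact (Set.ncard_le_ncard key (Set.toFinite _)).trans (Set.ncard_image_le (Set.toFinite _))

end Pool.Agent.V7H67.CC
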